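import Pool.Agent.V8H37.Roabp.Size2
import Pool.Agent.V8H11.RoabpNum2

/-!
# Explicit hitting sets for read-once oblivious algebraic branching programs

Hitting sets with `C(w,ε) (d + 1) n^(1 + ε)` points for width `w` in known order, and with
`(d + 1) n^c` points for all widths `w ≤ (log n)^(r/(2r+3))`.
-/

set_option autoImplicit false

namespace Pool.Agent.Results.MP_c2aa42_lc.ReadOnceNearLinear

open Pool.Agent.V8H37.Roabp2

theorem result :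
    (∀ n w k d : ℕ, 1 ≤ w → 2 ≤ k →
      (hittingSet n w k d).card ≤
        side k w ^ (k * pts k w) * (d * (2 * pts k w) ^ Nat.clog k n + 1) ∧
      (∀ a ∈ hittingSet n w k d, ∀ i : Fin n, |a i| ≤
        ((2 : ℤ) ^ (side k w + 1) * ((d * (2 * pts k w) ^ Nat.clog k n + pts k w : ℕ) : ℤ)) ^
          ((4 * pts k w) ^ Nat.clog k n)) ∧
      ∀ f : MvPolynomial (Fin n) ℂ, IsROABP n w f → f.totalDegree ≤ d → f ≠ 0 →
        ∃ a ∈ hittingSet n w k d, MvPolynomial.eval (fun i => ((a i : ℤ) : ℂ)) f ≠ 0) ∧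
    (∀ w : ℕ, 1 ≤ w → ∀ ε : ℝ, 0 < ε → ∃ k C : ℕ, 2 ≤ k ∧ ∀ n d : ℕ, 1 ≤ n →
      ((hittingSet n w k d).card : ℝ) ≤ C * (d + 1) * (n : ℝ) ^ (1 + ε)) ∧
    (∀ r : ℕ, 1 ≤ r → ∃ c : ℕ, ∀ n w : ℕ, 1 ≤ w → 2 ≤ n →
      w ^ (2 * r + 3) ≤ Nat.log 2 n ^ r → ∃ k : ℕ, 2 ≤ k ∧ ∀ d : ℕ,
        (hittingSet n w k d).card ≤ (d + 1) * n ^ c) := by
  refine ⟨fun n w k d hw hk => ⟨card_hittingSet n w k d,
    fun a ha i => hittingSet_size n w k d a ha i,
    fun f hf hd h0 => hittingSet_hits n w k d hk hw f hf hd h0⟩, ?_, ?_⟩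
  · intro w hw ε hε
    obtain ⟨k, C, hk, h⟩ := num_const w hw ε hε
    refine ⟨k, C, hk, fun n d hn => le_trans ?_ (h n d hn)⟩
    exact_mod_cast card_hittingSet n w k d
  · intro r hr
    obtain ⟨c, hc⟩ := num_grow r hr
    refine ⟨c, fun n w hw hn h => ?_⟩
    obtain ⟨k, hk, h2⟩ := hc n w hw hn h
    exact ⟨k, hk, fun d => (card_hittingSet n w k d).trans (h2 d)⟩

end Pool.Agent.Results.MP_c2aa42_lc.ReadOnceNearLinear
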