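import Pool.Agent.V8H51.PIT.WidthProof

/-!
# Explicit hitting sets for oblivious branching programs with repeated reads

The polynomials computed by oblivious programs of width `w` and length `s`, which may read the
variables in any order and any number of times, are hit by an explicit set of points. With
`r = ⌈√s / w⌉` the number of its points is `(n d s)^O(w √s + w ^ 2)`.
-/

set_option autoImplicit false

namespace Pool.Agent.Results.MP_c2aa42_lc.RepeatedReadPrograms

open Pool.Agent.V8H51.PIT

/-- The number `M` of moments used. -/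
def moments (w r : ℕ) : ℕ := (r + 1) * w ^ 2 + r

/-- The explicit hitting set. -/
def hittingSet (n w s r d : ℕ) : Finset (Fin n → ℕ) :=
  points n (moments w r) (2 * (s / r)) (d * moments w r)

theorem result (n w s r d : ℕ) (hw : 1 ≤ w) (hr : 1 ≤ r) :
    (hittingSet n w s r d).card ≤ (n + 1) ^ (2 * (s / r)) *
      (d * moments w r + 1) ^ (moments w r + 2 * (s / r) + 1) ∧
    ∀ P : WProg n w, P.length ≤ s →
      ∀ f ∈ Algebra.adjoin ℂ (Set.range fun p : Fin w × Fin w => progMatrix P p.1 p.2),
        f.totalDegree ≤ d → f ≠ 0 →
        ∃ a ∈ hittingSet n w s r d, MvPolynomial.eval (fun i => (a i : ℂ)) f ≠ 0 :=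
  ⟨card_points_le _ _ _ _, fun P hs f hfP hd hf => width_hit hw hr P hs f hfP hd hf⟩

end Pool.Agent.Results.MP_c2aa42_lc.RepeatedReadPrograms
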