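import Pool.Agent.V8H51.PIT.FmlProof

/-!
# Explicit hitting sets for formulas, and for circuits with few reused gates

An arithmetic formula of degree at most `d` with `s` leaves labelled by variables, and any number of
leaves labelled by constants, is hit by an explicit set of `(n + 1)^(2√s) (d M + 1)^(M + 2√s + 1)`
points, `M = 5(√s + 1) + 1`. More generally this is proved for programs of `t` formulas which use
the results of earlier formulas at `T` leaves.
-/

set_option autoImplicit false

namespace Pool.Agent.Results.MP_c2aa42_lc.SubquadraticFormulas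

open Pool.Agent.V8H51.PIT

/-- The number `M` of moments used. -/
def moments (t s T : ℕ) : ℕ := 5 * (Nat.sqrt s + 1) + 4 * T + t

/-- The explicit hitting set. -/
def hittingSet (n t s T d : ℕ) : Finset (Fin n → ℕ) :=
  points n (moments t s T) (2 * Nat.sqrt s) (d * moments t s T)

theorem result (n t s T d : ℕ) :
    (hittingSet n t s T d).card ≤ (n + 1) ^ (2 * Nat.sqrt s) *
      (d * moments t s T + 1) ^ (moments t s T + 2 * Nat.sqrt s + 1) ∧
    ∀ P : List (Fml n), P.length ≤ t → (P.map Fml.reads).sum ≤ s → (P.map Fml.uses).sum ≤ T →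
      (results P 0).totalDegree ≤ d → results P 0 ≠ 0 →
      ∃ a ∈ hittingSet n t s T d, MvPolynomial.eval (fun i => (a i : ℂ)) (results P 0) ≠ 0 := by
  refine ⟨card_points_le _ _ _ _, ?_⟩
  intro P ht hs hT hd hf
  refine prog_hit (Nat.succ_pos (Nat.sqrt s)) ?_ P ht hT hs hd hf
  refine Nat.mul_le_mul_left 2 (Nat.lt_succ_iff.1 ?_)
  exact (Nat.div_lt_iff_lt_mul (Nat.succ_pos _)).2 (Nat.lt_succ_sqrt s)

end Pool.Agent.Results.MP_c2aa42_lc.SubquadraticFormulas
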