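import Pool.Agent.V8H51.PIT.Det

/-!
# Explicit hitting sets for symbolic determinants of small total rank

The determinants `det (A₀ + x_1 A_1 + ⋯ + x_n A_n)`, where `A₀, …, A_n` are complex matrices of any
order `N` and `rank A_1 + ⋯ + rank A_n ≤ s`, are hit by an explicit set of points. With
`r = ⌈s^(1/3)⌉` the number of its points is `(n s)^O(s^(2/3))`.
-/

set_option autoImplicit false

namespace Pool.Agent.Results.MP_c2aa42_lc.SymbolicDeterminants

open Pool.Agent.V8H51.PIT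

/-- The explicit hitting set. -/
def hittingSet (n s r : ℕ) : Finset (Fin n → ℕ) :=
  points n (r ^ 2 + r + 1) (2 * (s / r)) (s * (r ^ 2 + r + 1))

theorem result (n s r : ℕ) (hr : 1 ≤ r) :
    (hittingSet n s r).card ≤ (n + 1) ^ (2 * (s / r)) *
      (s * (r ^ 2 + r + 1) + 1) ^ (r ^ 2 + r + 2 + 2 * (s / r)) ∧
    ∀ (N : ℕ) (A₀ : Matrix (Fin N) (Fin N) ℂ) (A : Fin n → Matrix (Fin N) (Fin N) ℂ),
      ∑ i, (A i).rank ≤ s → (∃ x : Fin n → ℂ, (A₀ + ∑ i, x i • A i).det ≠ 0) →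
      ∃ a ∈ hittingSet n s r, (A₀ + ∑ i, (a i : ℂ) • A i).det ≠ 0 := by
  constructor
  · refine (card_points_le _ _ _ _).trans (le_of_eq ?_)
    congr 2
    omega
  · rintro N A₀ A hs ⟨x, hx⟩
    have hf : (symMat A₀ A).det ≠ 0 := by
      intro h
      apply hx
      rw [← eval_det_symMat, h, map_zero]
    obtain ⟨a, ha, h⟩ := weight_hit (ρ := r ^ 2 + 1) (κ := r) (M := r ^ 2 + r + 1)
      (b := 2 * (s / r)) (s := s) (r := r) (d := s) hr le_rfl (by omega)
      (by nlinarith [Nat.zero_le (r ^ 2)]) _ hf ((totalDegree_symMat A₀ A).trans hs) (fun i => (A i).rank) hs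
      (fun B hB => blockSimple_det A₀ A B hB)
    exact ⟨a, ha, by rwa [eval_det_symMat] at h⟩

end Pool.Agent.Results.MP_c2aa42_lc.SymbolicDeterminants
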